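import Pool.Agent.H18.FDP.PRM

/-! # MP_1f2761, k = 2: rows LQQ, LQP (numerics of the windows) -/

set_option autoImplicit false

open Finset Pool.K2 Pool.FD MeasureTheory Filter

namespace Pool.Agent.H24.FD

private theorem lq_rho {c : ℝ} (hc : 0 < c) : ∃ ρ₀ : ℝ, 0 < ρ₀ ∧ ∀ ρ : ℝ, 0 ≤ ρ → ρ ≤ ρ₀ →
    7 * C1 1100 * ρ + 13 * Real.sqrt ρ ≤ c := by
  have hC : 0 < C1 1100 := by
    rw [C1]
    positivity
  generalize C1 1100 = C at hC
  have hA : 0 < 7 * C + 13 := by positivity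
  have hr : 0 < min 1 (c / (7 * C + 13)) := lt_min one_pos (div_pos hc hA)
  have hr1 : min 1 (c / (7 * C + 13)) ≤ 1 := min_le_left _ _
  have hr2 : min 1 (c / (7 * C + 13)) ≤ c / (7 * C + 13) := min_le_right _ _
  generalize min 1 (c / (7 * C + 13)) = r at hr hr1 hr2
  refine ⟨r ^ 2, by positivity, fun ρ h0 h1 => ?_⟩
  have h2 : Real.sqrt ρ ≤ r := Real.sqrt_le_iff.2 ⟨hr.le, h1⟩
  have h3 : ρ ≤ r := h1.trans (by nlinarith only [hr, hr1])
  rw [le_div_iff₀ hA] at hr2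
  have h4 : 7 * C * ρ ≤ 7 * C * r := mul_le_mul_of_nonneg_left h3 (by positivity)
  linarith only [h2, h4, hr2]

private theorem lq_er {q m l T t₁ : ℕ} {ρ η c : ℝ}
    (h1 : (2 * NI l l 1100) ^ (3200 + T + 1) * s0 q m t₁ l 1100 ≤ η)
    (h2 : 7 * C1 1100 * ρ + 13 * Real.sqrt ρ ≤ c)
    (h3 : (3200 + T + 1) * (l * atyp eb l) ≤ η) : er q m t₁ l l T ρ ≤ c + 2 * η := by
  rw [er]
  generalize (2 * (NI l l 1100 : ℝ)) ^ (3200 + T + 1) * s0 q m t₁ l 1100 = a at h1 ⊢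
  linarith only [h1, h2, h3]

private theorem lq_xx {q : ℕ} (hq : q = 3 ∨ q = 5) :
    0 ≤ 1 - xx q ∧ 1 - xx q ≤ 1 ∧ dens q q = (1 - xx q) / Real.logb 2 q := by
  rcases hq with rfl | rfl
  · rw [xx, dens, if_pos rfl, if_neg (by norm_num), if_pos rfl, if_pos rfl]
    norm_num
  · rw [xx, dens, if_neg (by norm_num), if_neg (by norm_num), if_pos rfl, if_neg (by norm_num)]
    norm_num

private theorem lq_q_alg {s N P T e D A t g m lam : ℝ} (hs : s = N / lam) (hlam : 3 / 2 ≤ lam)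
    (hN : 0 ≤ N) (hT : 0 ≤ T) (hP : P = 3200 + T) (he : 0 < e) (he1 : e ≤ 1)
    (h32 : 3200 ≤ e / 16 * P) (hD0 : 0 ≤ D) (hD1 : D ≤ 1) (hA : A ≤ D + e / 4)
    (ht : t ≤ e / 32 * N + 1)
    (hC : 3200 + T * (5 + g + 2 * m) ≤ e / 4 * (N * P)) :
    3200 * (s + 1) + T * (t + g + 2 * m + 2 + (s + 1) * A) ≤ (D / lam + e / 2) * (N * P) := by
  have hlam0 : 0 < lam := by linarith only [hlam]
  have hs0 : 0 ≤ s := by
    rw [hs]
    positivity
  have hP0 : 0 < P := by linarith only [hP, hT]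
  have hTP : T ≤ P := by linarith only [hP]
  have hsN : s ≤ 2 / 3 * N := by
    rw [hs, div_le_iff₀ hlam0]
    nlinarith only [hlam, hN]
  have e1 : D / lam * (N * P) = D * s * P := by
    rw [hs]
    ring
  -- Q = e P N
  have hQ : e * P * s ≤ 2 / 3 * (e * (N * P)) := by
    have := mul_le_mul_of_nonneg_left hsN (by positivity : 0 ≤ e * P)
    linarith only [this]
  have hTN : T * (e * N) ≤ e * (N * P) := by
    have := mul_le_mul_of_nonneg_right hTP (by positivity : 0 ≤ e * N)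
    linarith only [this]
  have h1 : 3200 * s ≤ e / 16 * P * s := mul_le_mul_of_nonneg_right h32 hs0
  have h2 : T * ((s + 1) * A) ≤ T * ((s + 1) * (D + e / 4)) :=
    mul_le_mul_of_nonneg_left (mul_le_mul_of_nonneg_left hA (by positivity)) hT
  have h3 : T * (s * (D + e / 4)) ≤ P * (s * (D + e / 4)) :=
    mul_le_mul_of_nonneg_right hTP (by positivity)
  have h4 : T * (D + e / 4) ≤ T * 2 := mul_le_mul_of_nonneg_left (by linarith only [hD1, he1]) hT
  have h5 : T * t ≤ T * (e / 32 * N + 1) := mul_le_mul_of_nonneg_left ht hT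
  have e2 : (D / lam + e / 2) * (N * P) = D * s * P + e / 2 * (N * P) := by
    rw [add_mul, e1]
  have hQ0 : 0 ≤ e * (N * P) := by positivity
  rw [e2]
  nlinarith only [h1, h2, h3, h4, h5, hC, hQ, hTN, hQ0]

theorem lqq : LQQStmt := by
  intro hLIM hATY q hq m g T e θ εk he he1 hTe hθ hθe hεk hεke hge
  obtain ⟨hlo, hhi⟩ := prm_log5 hq
  obtain ⟨hx0, hx1, hdens⟩ := lq_xx hq
  obtain ⟨ρ₀, hρ₀, hρ⟩ := lq_rho (c := e / 32) (by positivity)
  obtain ⟨l1, hl1⟩ := hLIM hATY q hq m T θ (e / 16) 1 (min (e / 64) ρ₀) hθ (by positivity) one_pos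
    (lt_min (by positivity) hρ₀)
  obtain ⟨l2, hl2⟩ := exists_nat_gt (4 * (3200 + T * (5 + g + 2 * m)) / e : ℝ)
  refine ⟨max l1 (max l2 1), fun l hl => ?_⟩
  simp only [max_le_iff, ge_iff_le] at hl
  obtain ⟨h1, h2, h3⟩ := hl
  obtain ⟨a1, a2, a3, a4, a5, -⟩ := hl1 l h1
  have hη1 : min (e / 64) ρ₀ ≤ e / 64 := min_le_left _ _
  have hη2 : min (e / 64) ρ₀ ≤ ρ₀ := min_le_right _ _
  generalize min (e / 64) ρ₀ = η at a1 a3 a5 hη1 hη2
  have herr := lq_er a1 (hρ _ a2 (a3.trans hη2)) a5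
  generalize er q m (t1 θ l) l l T (rhoL q (t1 θ l) l (e / 16)) = E at herr
  have h3' : (1 : ℝ) ≤ l := by exact_mod_cast h3
  have h2' : (4 * (3200 + T * (5 + g + 2 * m)) / e : ℝ) ≤ l := hl2.le.trans (by exact_mod_cast h2)
  rw [div_le_iff₀ he] at h2'
  have ht : (t1 θ l : ℝ) ≤ e / 32 * ((l * l : ℕ) : ℝ) + 1 := by
    have h8 : (t1 θ l : ℝ) ≤ θ * l ^ 2 + 1 := (Nat.ceil_lt_add_one (by positivity)).le
    have h9 : θ * (l : ℝ) ^ 2 ≤ e / 32 * (l : ℝ) ^ 2 := mul_le_mul_of_nonneg_right hθe (by positivity)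
    push_cast
    linarith only [h8, h9]
  have hP : (3200 : ℝ) ≤ e / 16 * (3200 + T) := by
    rw [div_le_iff₀ (by positivity)] at hTe
    exact hTe
  have hN : (l : ℝ) ≤ ((l * l : ℕ) : ℝ) * (3200 + T) := by
    push_cast
    have hT0 : (0 : ℝ) ≤ T := Nat.cast_nonneg T
    have h10 : (l : ℝ) * 1 ≤ l * l := mul_le_mul_of_nonneg_left h3' (by linarith only [h3'])
    have h11 : (l : ℝ) * l * 1 ≤ l * l * (3200 + T) :=
      mul_le_mul_of_nonneg_left (by linarith only [hT0]) (by positivity)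
    linarith only [h10, h11]
  have hC : (3200 : ℝ) + T * (5 + g + 2 * m) ≤ e / 4 * (((l * l : ℕ) : ℝ) * (3200 + T)) := by
    have := mul_le_mul_of_nonneg_left hN (by positivity : 0 ≤ e / 4)
    linarith only [this, h2']
  have hq51 : (1 + 2 * (q : ℝ) ^ 2) * εk ≤ e / 16 := by
    have h12 : 1 + 2 * (q : ℝ) ^ 2 ≤ 51 := by
      rcases hq with rfl | rfl <;> norm_num
    have h13 := mul_le_mul_of_nonneg_right h12 hεk
    linarith only [h13, hεke]
  have hA : (1 - xx q + εk) + (2 * (q : ℝ) ^ 2 * εk + 2 * (q : ℝ) ^ 2 / (q : ℝ) ^ g) + e / 16 + E ≤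
      (1 - xx q) + e / 4 := by
    linarith only [hq51, hge, herr, hη1]
  have hfin := lq_q_alg (s := ((l * l : ℕ) : ℝ) / Real.logb 2 q) rfl hlo (Nat.cast_nonneg _)
    (Nat.cast_nonneg T) rfl he he1 hP hx0 hx1 hA ht hC
  rw [hdens, tm]
  push_cast at hfin ⊢
  linarith only [hfin]

private theorem lq_p_alg {s N P T e A t h l lam : ℝ} (hs : s = N / lam) (hlam : 3 / 2 ≤ lam)
    (hl : 0 ≤ l) (hNl : N = l * l) (hT : 0 ≤ T) (hP : P = 3200 + T) (he : 0 < e) (he1 : e ≤ 1)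
    (h32 : 3200 ≤ e / 16 * P) (hA : A ≤ 1 / 2 + 13 * e / 64)
    (ht : t ≤ e / 32 * N + l) (hl8 : T * l ≤ e / 8 * (N * P))
    (hC : 3200 + T * (h + 2) ≤ e / 8 * (N * P)) :
    3200 * (s + 1) + T * (h + (t / lam + 1) + (s + 1) * A) ≤
      (1 / 2 / lam + e / 2) * (N * P) := by
  have hlam0 : 0 < lam := by linarith only [hlam]
  have hN : 0 ≤ N := by
    rw [hNl]
    positivity
  have hs0 : 0 ≤ s := by
    rw [hs]
    positivity
  have hP0 : 0 < P := by linarith only [hP, hT]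
  have hTP : T ≤ P := by linarith only [hP]
  have hsN : s ≤ 2 / 3 * N := by
    rw [hs, div_le_iff₀ hlam0]
    nlinarith only [hlam, hN]
  have htl : t / lam ≤ 2 / 3 * (e / 32 * N + l) := by
    rw [div_le_iff₀ hlam0]
    have h0 : 0 ≤ e / 32 * N + l := by positivity
    nlinarith only [hlam, ht, h0]
  have e1 : 1 / 2 / lam * (N * P) = 1 / 2 * s * P := by
    rw [hs]
    ring
  have hQ : e * P * s ≤ 2 / 3 * (e * (N * P)) := by
    have := mul_le_mul_of_nonneg_left hsN (by positivity : 0 ≤ e * P)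
    linarith only [this]
  have hTN : T * (e * N) ≤ e * (N * P) := by
    have := mul_le_mul_of_nonneg_right hTP (by positivity : 0 ≤ e * N)
    linarith only [this]
  have h1 : 3200 * s ≤ e / 16 * P * s := mul_le_mul_of_nonneg_right h32 hs0
  have h2 : T * ((s + 1) * A) ≤ T * ((s + 1) * (1 / 2 + 13 * e / 64)) :=
    mul_le_mul_of_nonneg_left (mul_le_mul_of_nonneg_left hA (by positivity)) hT
  have h3 : T * (s * (1 / 2 + 13 * e / 64)) ≤ P * (s * (1 / 2 + 13 * e / 64)) :=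
    mul_le_mul_of_nonneg_right hTP (by positivity)
  have h4 : T * (1 / 2 + 13 * e / 64) ≤ T * 1 := mul_le_mul_of_nonneg_left (by linarith only [he1]) hT
  have h5 : T * (t / lam) ≤ T * (2 / 3 * (e / 32 * N + l)) := mul_le_mul_of_nonneg_left htl hT
  have h6 : 0 ≤ T * l := by positivity
  have hQ0 : 0 ≤ e * (N * P) := by positivity
  have e2 : (1 / 2 / lam + e / 2) * (N * P) = 1 / 2 * s * P + e / 2 * (N * P) := by
    rw [add_mul, e1]
  rw [e2]
  nlinarith only [h1, h2, h3, h4, h5, h6, hC, hl8, hQ, hTN, hQ0]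

theorem lqp : LQPStmt := by
  intro hLIM hATY q hq p hp hpq m T hm K₀ e θ M₀ R he he1 hTe hθ hθe hM0 hM1 hR
  have hlo := tmb_log3 hp
  have hdens : dens q p = 1 / 2 / Real.logb 2 p := by
    rw [dens, if_neg (by omega), if_neg hpq]
  obtain ⟨ρ₀, hρ₀, hρ⟩ := lq_rho (c := e / 128) (by positivity)
  obtain ⟨κ, hκ⟩ : ∃ κ : ℝ, κ = (2 * (K₀ : ℝ)) ^ 2 + 1 := ⟨_, rfl⟩
  have hκ1 : 1 ≤ κ := by
    rw [hκ]
    have : 0 ≤ (2 * (K₀ : ℝ)) ^ 2 := by positivity
    linarith only [this]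
  have hκ0 : 0 < κ := by linarith only [hκ1]
  obtain ⟨d', hd'⟩ : ∃ d' : ℝ, d' = e / (192 * (R + 1)) := ⟨_, rfl⟩
  have hd0 : 0 < d' := by
    rw [hd']
    positivity
  have hdR : 3 * d' * R ≤ e / 64 := by
    rw [hd']
    have hR1 : 0 < R + 1 := by linarith only [hR]
    have e3 : 3 * (e / (192 * (R + 1))) * R = e * R / (64 * (R + 1)) := by
      field_simp
      ring
    rw [e3, div_le_div_iff₀ (by positivity) (by norm_num)]
    nlinarith only [he, hR]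
  obtain ⟨d, hd⟩ : ∃ d : ℝ, d = d' ^ 2 * (ρ₀ / (2 * κ)) := ⟨_, rfl⟩
  have hd1 : 0 < d := by
    rw [hd]
    positivity
  have hdd : d / d' ^ 2 = ρ₀ / (2 * κ) := by
    rw [hd]
    field_simp
  refine ⟨d, d', hd1, hd0, ?_⟩
  obtain ⟨l1, hl1⟩ := hLIM hATY q hq m T θ (e / 64) d' (min (e / 512) (ρ₀ / (4 * κ))) hθ
    (by positivity) hd0 (lt_min (by positivity) (by positivity))
  obtain ⟨l2, hl2⟩ := exists_nat_gt (8 * (3200 + T * (hm + 2)) / e : ℝ)
  obtain ⟨l3, hl3⟩ := exists_nat_gt (8 / e : ℝ)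
  refine ⟨max l1 (max l2 (max l3 1)), fun l hl => ?_⟩
  simp only [max_le_iff, ge_iff_le] at hl
  obtain ⟨h1, h2, h3, h4⟩ := hl
  obtain ⟨a1, a2, a3, a4, a5, a6⟩ := hl1 l h1
  obtain ⟨a7, a8⟩ := a6 d hd1.le
  have hη1 : min (e / 512) (ρ₀ / (4 * κ)) ≤ e / 512 := min_le_left _ _
  have hη2 : min (e / 512) (ρ₀ / (4 * κ)) ≤ ρ₀ / (4 * κ) := min_le_right _ _
  generalize min (e / 512) (ρ₀ / (4 * κ)) = η at a1 a3 a5 a8 hη1 hη2
  have hρle : rhoL q (t1 θ l) l (e / 64) + (2 * (K₀ : ℝ)) ^ 2 * rhoG q l d d' ≤ ρ₀ := by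
    rw [hdd] at a8
    have e4 : ρ₀ / (2 * κ) = 2 * (ρ₀ / (4 * κ)) := by
      field_simp
      norm_num
    have h6 : κ * (4 * (ρ₀ / (4 * κ))) = ρ₀ := by
      field_simp
    have h8 : 0 ≤ ρ₀ / (4 * κ) := by positivity
    rw [e4] at a8
    generalize ρ₀ / (4 * κ) = v at a8 hη2 h6 h8
    have h5 : (2 * (K₀ : ℝ)) ^ 2 * rhoG q l d d' ≤ (2 * (K₀ : ℝ)) ^ 2 * (3 * v) :=
      mul_le_mul_of_nonneg_left (by linarith only [a8, hη2]) (by positivity)
    have h7 : 0 ≤ (2 * (K₀ : ℝ)) ^ 2 * v := by positivity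
    rw [hκ] at h6
    generalize (2 * (K₀ : ℝ)) ^ 2 = X at h5 h6 h7 ⊢
    linarith only [a3, hη2, h5, h6, h7, h8]
  have hρ0 : 0 ≤ rhoL q (t1 θ l) l (e / 64) + (2 * (K₀ : ℝ)) ^ 2 * rhoG q l d d' := by positivity
  have herr := lq_er a1 (hρ _ hρ0 hρle) a5
  generalize er q m (t1 θ l) l l T
    (rhoL q (t1 θ l) l (e / 64) + (2 * (K₀ : ℝ)) ^ 2 * rhoG q l d d') = E at herr
  have h4' : (1 : ℝ) ≤ l := by exact_mod_cast h4
  have h2' : (8 * (3200 + T * (hm + 2)) / e : ℝ) ≤ l := hl2.le.trans (by exact_mod_cast h2)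
  have h3' : (8 / e : ℝ) ≤ l := hl3.le.trans (by exact_mod_cast h3)
  rw [div_le_iff₀ he] at h2' h3'
  have hT0 : (0 : ℝ) ≤ T := Nat.cast_nonneg T
  have ht : ((l * u1 θ l : ℕ) : ℝ) ≤ e / 32 * ((l * l : ℕ) : ℝ) + l := by
    have h8 : (u1 θ l : ℝ) ≤ θ * l + 1 := (Nat.ceil_lt_add_one (by positivity)).le
    have h9 : θ * (l : ℝ) ≤ e / 32 * l := mul_le_mul_of_nonneg_right hθe (by positivity)
    have h10 : (l : ℝ) * u1 θ l ≤ l * (e / 32 * l + 1) :=
      mul_le_mul_of_nonneg_left (by linarith only [h8, h9]) (by positivity)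
    push_cast
    linarith only [h10]
  have hP : (3200 : ℝ) ≤ e / 16 * (3200 + T) := by
    rw [div_le_iff₀ (by positivity)] at hTe
    exact hTe
  have hl8 : (T : ℝ) * l ≤ e / 8 * (((l * l : ℕ) : ℝ) * (3200 + T)) := by
    push_cast
    have h11 : (T : ℝ) * l ≤ (3200 + T) * l :=
      mul_le_mul_of_nonneg_right (by linarith only []) (by positivity)
    have h12 : (3200 + (T : ℝ)) * l * 8 ≤ (3200 + T) * l * (l * e) :=
      mul_le_mul_of_nonneg_left h3' (by positivity)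
    linarith only [h11, h12]
  have hN : (l : ℝ) ≤ ((l * l : ℕ) : ℝ) * (3200 + T) := by
    push_cast
    have h10 : (l : ℝ) * 1 ≤ l * l := mul_le_mul_of_nonneg_left h4' (by linarith only [h4'])
    have h11 : (l : ℝ) * l * 1 ≤ l * l * (3200 + T) :=
      mul_le_mul_of_nonneg_left (by linarith only [hT0]) (by positivity)
    linarith only [h10, h11]
  have hC : (3200 : ℝ) + T * (hm + 2) ≤ e / 8 * (((l * l : ℕ) : ℝ) * (3200 + T)) := by
    have := mul_le_mul_of_nonneg_left hN (by positivity : 0 ≤ e / 8)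
    linarith only [this, h2']
  have hA : M₀ * (1 + e / 64) + 3 * d' * R + 2 * (e / 64) + E ≤ 1 / 2 + 13 * e / 64 := by
    have h13 : M₀ * (1 + e / 64) ≤ (1 / 2 + e / 8) * (1 + e / 64) :=
      mul_le_mul_of_nonneg_right (by linarith only [hM1]) (by positivity)
    have h14 : e * e ≤ e := by nlinarith only [he, he1]
    linarith only [h13, h14, hdR, herr, hη1, he]
  have hfin := lq_p_alg (s := ((l * l : ℕ) : ℝ) / Real.logb 2 p) (l := (l : ℝ)) rfl hlo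
    (by positivity) (by push_cast; rfl) hT0 rfl he he1 hP hA ht hl8 hC
  rw [hdens, tm, tm]
  push_cast at hfin ⊢
  linarith only [hfin]

end Pool.Agent.H24.FD
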