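import Pool.Agent.H18.FDP.TMB

/-! # MP_1f2761, k = 2: row PRM (the hypotheses on the parameters hold for large `l`) -/

set_option autoImplicit false

open Finset Pool.K2 Pool.FD MeasureTheory Filter

namespace Pool.Agent.H24.FD

theorem prm_t1 {θ : ℝ} (hθ : 0 < θ) : Tendsto (fun l : ℕ => t1 θ l) atTop atTop := by
  rw [tendsto_atTop]
  intro b
  obtain ⟨N, hN⟩ := exists_nat_gt ((b : ℝ) / θ)
  filter_upwards [eventually_ge_atTop (max N 1)] with l hl
  have h1 : N ≤ l := (le_max_left _ _).trans hl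
  have h2 : 1 ≤ l := (le_max_right _ _).trans hl
  have h3 : (b : ℝ) ≤ θ * l ^ 2 := by
    have h4 : (b : ℝ) / θ ≤ l := hN.le.trans (by exact_mod_cast h1)
    rw [div_le_iff₀ hθ] at h4
    have h5 : (1 : ℝ) ≤ l := by exact_mod_cast h2
    nlinarith only [h4, h5, hθ]
  have h6 : (b : ℝ) ≤ t1 θ l := h3.trans (Nat.le_ceil _)
  exact_mod_cast h6

theorem prm_log5 {q : ℕ} (hq : q = 3 ∨ q = 5) :
    (3 : ℝ) / 2 ≤ Real.logb 2 q ∧ Real.logb 2 q ≤ 5 / 2 := by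
  refine ⟨tmb_log3 (by omega), ?_⟩
  have h : (0 : ℝ) < q := by
    rcases hq with rfl | rfl <;> norm_num
  rw [Real.logb_le_iff_le_rpow (by norm_num) h]
  have h1 : ((2 : ℝ) ^ ((5 : ℝ) / 2)) ^ 2 = 32 := by
    rw [← Real.rpow_natCast, ← Real.rpow_mul (by norm_num)]
    norm_num
  have h2 : (0 : ℝ) < (2 : ℝ) ^ ((5 : ℝ) / 2) := by positivity
  have h3 : (q : ℝ) ≤ 5 := by
    rcases hq with rfl | rfl <;> norm_num
  nlinarith only [h1, h2, h3]

theorem prm : PRMStmt := by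
  intro hM q hq m g hm hg θ hθ hθ1
  obtain ⟨l1, hl1⟩ := hM eb (by rw [eb]; norm_num)
  obtain ⟨hlo, hhi⟩ := prm_log5 hq
  have hq2 : 2 ≤ q := by omega
  have hq3' : (3 : ℝ) ≤ q := by
    rcases hq with rfl | rfl <;> norm_num
  have hq0 : (0 : ℝ) < q := by linarith only [hq3']
  -- shells
  set r : ℝ := (q : ℝ) ^ (-(5 / 10000 : ℝ)) with hr
  have hr0 : 0 < r := Real.rpow_pos_of_pos hq0 _
  have hr1 : r < 1 := Real.rpow_lt_one_of_one_lt_of_neg (by linarith only [hq3']) (by norm_num)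
  have hsh : ∀ t : ℕ, ∑' i : ℕ, (q : ℝ) ^ (-(5 / 10000 * (t + 1 + i) : ℝ)) =
      r ^ (t + 1) * (1 - r)⁻¹ := by
    intro t
    rw [← tsum_geometric_of_lt_one hr0.le hr1, ← tsum_mul_left]
    apply tsum_congr
    intro i
    rw [← pow_add, hr, ← Real.rpow_natCast, ← Real.rpow_mul hq0.le]
    push_cast
    ring_nf
  have e1 : ∀ᶠ t : ℕ in atTop, r ^ (t + 1) * (1 - r)⁻¹ ≤ 1 := by
    have h1 : Tendsto (fun t : ℕ => r ^ (t + 1) * (1 - r)⁻¹) atTop (nhds (0 * (1 - r)⁻¹)) :=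
      ((tendsto_pow_atTop_nhds_zero_of_lt_one hr0.le hr1).comp (tendsto_add_atTop_nat 1)).mul_const _
    rw [zero_mul] at h1
    exact h1.eventually_le_const (by norm_num)
  -- low
  have hs : 1 < (q : ℝ) ^ (3 / 1000 : ℝ) := Real.one_lt_rpow (by linarith only [hq3']) (by norm_num)
  have e2 : ∀ᶠ t : ℕ in atTop, 200 ≤ (q : ℝ) ^ (3 / 1000 * t : ℝ) := by
    filter_upwards [(tendsto_pow_atTop_atTop_of_one_lt hs).eventually_ge_atTop 200] with t ht
    rw [Real.rpow_mul hq0.le, Real.rpow_natCast]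
    exact ht
  obtain ⟨l2, hl2⟩ := eventually_atTop.1 ((prm_t1 hθ).eventually e1)
  obtain ⟨l3, hl3⟩ := eventually_atTop.1 ((prm_t1 hθ).eventually e2)
  refine ⟨max (max l1 l2) (max l3 (max 200 (g + 10))), fun l hl => ?_⟩
  simp only [max_le_iff, ge_iff_le] at hl
  obtain ⟨⟨h1, h2⟩, h3, h4, h5⟩ := hl
  have h4' : (200 : ℝ) ≤ l := by exact_mod_cast h4
  have h5' : (g : ℝ) + 10 ≤ l := by exact_mod_cast h5
  refine ⟨h4, ?_, fun wm hwm => ?_⟩
  · have : θ * l ≤ l := by nlinarith only [hθ1, h4']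
    exact Nat.ceil_le.2 this
  · refine ⟨hq2, by omega, hm, hg, by omega, by omega, by nlinarith only [h4], ?_, hwm, hl1 l h1, ?_, ?_⟩
    · intro J hJ
      obtain ⟨-, h6, -, -⟩ := tmb q (l * l) J hq2 hJ
      have h7 : ((l * l : ℕ) : ℝ) / (5 / 2) ≤ ((l * l : ℕ) : ℝ) / Real.logb 2 q :=
        div_le_div_of_nonneg_left (Nat.cast_nonneg _) (by linarith only [hlo]) hhi
      have h8 : (t1 θ l : ℝ) ≤ θ * l ^ 2 + 1 := (Nat.ceil_lt_add_one (by positivity)).le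
      have h9 : ((t1 θ l + g : ℕ) : ℝ) ≤ tt q (l * l) J := by
        push_cast at h6 h7 ⊢
        nlinarith only [h6, h7, h8, h4', h5', hθ1]
      exact_mod_cast h9
    · rw [hsh]
      exact hl2 l h2
    · exact hl3 l h3

end Pool.Agent.H24.FD
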