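import Pool.Agent.H24.FD.P5

/-! # MP_1f2761, k = 2: row TMB (number of digits) -/

set_option autoImplicit false

open Finset Pool.K2 Pool.FD MeasureTheory

namespace Pool.Agent.H24.FD

theorem tmb_II_le {p : ℕ} (hp : 2 ≤ p) (J : ℕ) :
    (J : ℝ) / Real.logb 2 p ≤ II p J ∧ (II p J : ℝ) ≤ J / Real.logb 2 p + 1 := by
  have hp' : (2 : ℝ) ≤ p := by exact_mod_cast hp
  have hp1 : (1 : ℝ) < p := by linarith only [hp']
  have hl : 0 < Real.logb 2 p := Real.logb_pos (by norm_num) hp1
  constructor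
  · rw [div_le_iff₀ hl]
    have h1 : 2 ^ J ≤ p ^ II p J := Nat.le_pow_clog (by omega) _
    have h2 : (2 : ℝ) ^ J ≤ (p : ℝ) ^ II p J := by exact_mod_cast h1
    have h3 := Real.logb_le_logb_of_le (b := 2) (by norm_num) (by positivity) h2
    rw [Real.logb_pow, Real.logb_pow, Real.logb_self_eq_one (by norm_num), mul_one] at h3
    exact h3
  · rcases Nat.eq_zero_or_pos (II p J) with h0 | h0
    · rw [h0]
      have : 0 ≤ (J : ℝ) / Real.logb 2 p := by positivity
      push_cast
      linarith only [this]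
    · have hJ : 1 < 2 ^ J := by
        by_contra hc
        have : II p J = 0 := Nat.clog_of_right_le_one (by omega) p
        omega
      have h1 : p ^ (II p J - 1) < 2 ^ J := Nat.pow_pred_clog_lt_self (by omega) hJ
      have h2 : (p : ℝ) ^ (II p J - 1) ≤ (2 : ℝ) ^ J := by exact_mod_cast h1.le
      have h3 := Real.logb_le_logb_of_le (b := 2) (by norm_num) (by positivity) h2
      rw [Real.logb_pow, Real.logb_pow, Real.logb_self_eq_one (by norm_num), mul_one] at h3
      push_cast [Nat.cast_sub (by omega : 1 ≤ II p J)] at h3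
      have h4 : (II p J : ℝ) - 1 ≤ J / Real.logb 2 p := by
        rw [le_div_iff₀ hl]
        exact h3
      linarith only [h4]

theorem tmb_log3 {p : ℕ} (hp : 3 ≤ p) : (3 : ℝ) / 2 ≤ Real.logb 2 p := by
  have hp' : (3 : ℝ) ≤ p := by exact_mod_cast hp
  rw [Real.le_logb_iff_rpow_le (by norm_num) (by linarith only [hp'])]
  have h1 : ((2 : ℝ) ^ ((3 : ℝ) / 2)) ^ 2 = 8 := by
    rw [← Real.rpow_natCast, ← Real.rpow_mul (by norm_num)]
    norm_num
  have h2 : (0 : ℝ) < (2 : ℝ) ^ ((3 : ℝ) / 2) := by positivity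
  nlinarith only [h1, h2, hp']

theorem tmb : TMBStmt := by
  intro p w J hp hw
  have hp' : (2 : ℝ) ≤ p := by exact_mod_cast hp
  have hl : 0 < Real.logb 2 p := Real.logb_pos (by norm_num) (by linarith only [hp'])
  obtain ⟨h1, h2⟩ := tmb_II_le hp J
  obtain ⟨h3, h4⟩ := tmb_II_le hp (J - w)
  have hmono : II p (J - w) ≤ II p J :=
    Nat.clog_mono_right _ (Nat.pow_le_pow_right (by norm_num) (Nat.sub_le _ _))
  have e : (tt p w J : ℝ) = II p J - II p (J - w) := by
    rw [tt, Nat.cast_sub hmono]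
  have e2 : ((J - w : ℕ) : ℝ) / Real.logb 2 p = J / Real.logb 2 p - w / Real.logb 2 p := by
    rw [Nat.cast_sub hw, sub_div]
  rw [e2] at h3 h4
  refine ⟨?_, ?_, ?_, ?_⟩
  · rw [e, tm]
    linarith only [h2, h3]
  · rw [e]
    linarith only [h1, h4]
  · rw [tt, II, II, Nat.clog_pow 2 J (by norm_num), Nat.clog_pow 2 (J - w) (by norm_num)]
    omega
  · intro hp3 hw3
    have h5 := tmb_log3 hp3
    have hw3' : (3 : ℝ) ≤ w := by exact_mod_cast hw3
    have h6 : (w : ℝ) / Real.logb 2 p ≤ w / (3 / 2) :=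
      div_le_div_of_nonneg_left (by linarith only [hw3']) (by norm_num) h5
    rw [tm]
    linarith only [h6, hw3']

end Pool.Agent.H24.FD
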